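import Pool.Agent.H7.MF.Stmts

/-!
# Row KUE of the board mf18 (MP_fd41b2_co): cliques with `w` vertices (copy of H78/GY/KUY.lean)
-/

set_option autoImplicit false

open Finset

namespace Pool.MF7

open Pool.Agent.H23.KT Pool.Agent.H46.KW Pool.KQ Pool.GT7 Pool.GU7 Pool.GV7

private lemma KUE_ch {p w : ℕ} (hw : 1 ≤ w) (hp : 1 ≤ p) :
    (p + 1) * (p - 1).choose w ≤ (p - 1) * (p + 1).choose w := by
  obtain ⟨k, rfl⟩ : ∃ k, w = k + 1 := ⟨w - 1, by omega⟩
  obtain ⟨q, rfl⟩ : ∃ k, p = k + 1 := ⟨p - 1, by omega⟩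
  rw [Nat.add_sub_cancel]
  rcases Nat.eq_zero_or_pos q with rfl | hq
  · simp
  obtain ⟨n, rfl⟩ : ∃ k, q = k + 1 := ⟨q - 1, by omega⟩
  have e1 := Nat.add_one_mul_choose_eq n k
  have e2 := Nat.add_one_mul_choose_eq (n + 2) k
  have e3 : n.choose k ≤ (n + 2).choose k := Nat.choose_le_choose k (by omega)
  refine Nat.le_of_mul_le_mul_right (c := k + 1) ?_ (Nat.succ_pos k)
  calc (n + 1 + 1 + 1) * (n + 1).choose (k + 1) * (k + 1)
      = (n + 3) * ((n + 1).choose (k + 1) * (k + 1)) := by ring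
    _ = (n + 3) * ((n + 1) * n.choose k) := by rw [e1]
    _ ≤ (n + 3) * ((n + 1) * (n + 2).choose k) :=
        Nat.mul_le_mul_left _ (Nat.mul_le_mul_left _ e3)
    _ = (n + 1) * ((n + 2 + 1) * (n + 2).choose k) := by ring
    _ = (n + 1) * ((n + 2 + 1).choose (k + 1) * (k + 1)) := by rw [e2]
    _ = (n + 1) * (n + 1 + 1 + 1).choose (k + 1) * (k + 1) := by ring

theorem KUE_thm (h1 : DBLStmt) (h2 : GCO0Stmt) (h3 : CCK0Stmt) (h4 : TRVStmt) : KUEStmt := by
  intro V _ G p w r a e C W P U hP hS he he' hCB z hz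
  have hwp := hP.wp
  have hw2 := hP.w2
  have hrw := hP.rw
  have hrp := hP.rp
  have hP0 : Pr0 p w r := ⟨hwp, by omega, by omega⟩
  obtain ⟨c1, -, -, -⟩ := h3 G p w r a e C W P U hP0 hS he he' hCB z hz
  obtain ⟨g1, -, -, g4, -⟩ := h2 p w r hP0
  have hc2 : (p + 1) * (r - 1).choose w ≤ (p - 1) * (p + 1).choose w :=
    (Nat.mul_le_mul_left _ (Nat.choose_le_choose w (by omega))).trans
      (KUE_ch (by omega) (by omega))
  obtain ⟨-, d2⟩ := h1 G p a e P he he' hS.par hS.lo hS.mis z w (by omega)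
  set T : ℝ := TZ G p r (un P) z with hT
  set κ : ℝ := (kc G (nb G (un P) z) w : ℝ) with hκ
  have hκ0 : 0 ≤ κ := Nat.cast_nonneg _
  have hT0 : 0 ≤ T := by
    rw [hT, TZ]
    exact Finset.sum_nonneg fun L hL => (g1 _ (c1 L hL)).1
  have key : ∀ L ∈ clq G (un P) (p + 3), ((nb G L z).card.choose w : ℝ) ≤
      (r - 1).choose w + 2 ^ (p + 3) * ((p : ℝ) + 3) * ww p r (nb G L z).card := by
    intro L hL
    have hB := c1 L hL
    set B := (nb G L z).card with hBdef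
    obtain ⟨w0, -, -, -⟩ := g1 B hB
    by_cases hr : r ≤ B
    · have h5 := g4 B hB hr
      have h6 : (B.choose w : ℝ) ≤ 2 ^ (p + 3) := by
        have h7 : B.choose w ≤ 2 ^ B := Nat.choose_le_two_pow B w
        have h8 : 2 ^ B ≤ 2 ^ (p + 3) := Nat.pow_le_pow_right (by norm_num) (by omega)
        exact_mod_cast h7.trans h8
      have hp3 : (0 : ℝ) < (p : ℝ) + 3 := by positivity
      have h9 : 1 ≤ ((p : ℝ) + 3) * ww p r B := by
        have h10 := mul_le_mul_of_nonneg_left h5 hp3.le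
        rwa [mul_one_div, div_self hp3.ne'] at h10
      have h11 : (0 : ℝ) < 2 ^ (p + 3) := by positivity
      have h12 := mul_le_mul_of_nonneg_left h9 h11.le
      calc (B.choose w : ℝ) ≤ 2 ^ (p + 3) * 1 := by rw [mul_one]; exact h6
        _ ≤ 2 ^ (p + 3) * (((p : ℝ) + 3) * ww p r B) := h12
        _ = 2 ^ (p + 3) * ((p : ℝ) + 3) * ww p r B := by ring
        _ ≤ _ := by
          have h13 : (0 : ℝ) ≤ (r - 1).choose w := Nat.cast_nonneg _
          linarith
    · have h5 : B.choose w ≤ (r - 1).choose w := Nat.choose_le_choose w (by omega)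
      have h6 : (B.choose w : ℝ) ≤ (r - 1).choose w := by exact_mod_cast h5
      have h7 : 0 ≤ 2 ^ (p + 3) * ((p : ℝ) + 3) * ww p r B := by positivity
      linarith
  have hsum : ∑ L ∈ clq G (un P) (p + 3), ((nb G L z).card.choose w : ℝ) ≤
      kc G (un P) (p + 3) * (r - 1).choose w + 2 ^ (p + 3) * ((p : ℝ) + 3) * T := by
    refine (Finset.sum_le_sum key).trans (le_of_eq ?_)
    rw [Finset.sum_add_distrib, ← Finset.mul_sum, Finset.sum_const, nsmul_eq_mul, hT, TZ,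
      kc_eq]
  have hp3 : (4 : ℝ) ≤ (p : ℝ) + 3 := by
    have : (2 : ℝ) ≤ p := by exact_mod_cast (by omega : 2 ≤ p)
    linarith
  set b : ℝ := (p : ℝ) + 3 with hb
  set μ : ℝ := 1 - 1 / (32 * b ^ 2) with hμ
  set ν : ℝ := 1 - 1 / (32 * b) with hν
  have hi1 : 1 / (32 * b ^ 2) ≤ 1 / (32 * b) := by
    apply one_div_le_one_div_of_le (by positivity)
    nlinarith
  have hi0 : 0 < 1 / (32 * b ^ 2) := by positivity
  have hi2 : 1 / (32 * b) ≤ 1 / 128 := by
    apply one_div_le_one_div_of_le (by norm_num)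
    linarith
  have hμ0 : 0 < μ := by linarith
  have hμ1 : μ ≤ 1 := by linarith
  have hν0 : 0 < ν := by linarith
  have hν1 : ν ≤ 1 := by linarith
  have hmm : 1 / 2 ≤ ν * μ := by nlinarith
  have hmm2 : 1 - 1 / (16 * b) ≤ ν * μ := by
    have h5 : 1 / (16 * b) = 1 / (32 * b) + 1 / (32 * b) := by
      field_simp
      norm_num
    have h6 : ν * μ = 1 - 1 / (32 * b) - 1 / (32 * b ^ 2) + 1 / (32 * b) * (1 / (32 * b ^ 2)) := by
      rw [hν, hμ]
      ring
    have h7 : 0 ≤ 1 / (32 * b) * (1 / (32 * b ^ 2)) := by positivity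
    linarith
  have hX : (kc G (un P) (p + 3) : ℝ) * μ ≤ (a : ℝ) ^ (p + 3) := by
    have h5 : kc G (un P) (p + 3) ≤ ∏ i, (P i).card := by
      rw [(h4 G P hS.par).1, ← Fintype.card_piFinset]
      refine Finset.card_le_card fun f hf => ?_
      simp only [trv, Finset.mem_filter] at hf
      exact hf.1
    have h6 : ∏ i, ((P i).card : ℝ) ≤ ((1 + e) * a) ^ (p + 3) := by
      calc ∏ i, ((P i).card : ℝ) ≤ ∏ _i : Fin (p + 3), ((1 + e) * (a : ℝ)) :=
            Finset.prod_le_prod (fun i _ => Nat.cast_nonneg _) (fun i _ => hS.hi i)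
        _ = _ := by rw [Finset.prod_const, card_univ, Fintype.card_fin]
    have h8 : e ≤ 1 / (16 * b ^ 3) / 2 := he'
    have h10 : b * e ≤ 1 / (32 * b ^ 2) := by
      have h11 : b * e ≤ b * (1 / (16 * b ^ 3) / 2) := mul_le_mul_of_nonneg_left h8 (by linarith)
      have h12 : b * (1 / (16 * b ^ 3) / 2) = 1 / (32 * b ^ 2) := by
        field_simp
        norm_num
      linarith
    have he1 : e ≤ 1 := by nlinarith
    have h7 : (1 + e) ^ (p + 3) * μ ≤ 1 := by
      have g2 : 1 + ((p + 3 : ℕ) : ℝ) * (-e) ≤ (1 + (-e)) ^ (p + 3) :=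
        one_add_mul_le_pow (by linarith) (p + 3)
      have g3 : ((p + 3 : ℕ) : ℝ) = b := by rw [hb]; push_cast; ring
      rw [g3] at g2
      have g4 : (1 + e) ^ (p + 3) * (1 + (-e)) ^ (p + 3) ≤ 1 := by
        rw [← mul_pow]
        refine pow_le_one₀ ?_ ?_
        · exact mul_nonneg (by linarith) (by linarith)
        · nlinarith
      have g5 : 0 ≤ (1 + e) ^ (p + 3) := by positivity
      have g6 : μ ≤ (1 + (-e)) ^ (p + 3) := by linarith
      exact (mul_le_mul_of_nonneg_left g6 g5).trans g4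
    calc (kc G (un P) (p + 3) : ℝ) * μ ≤ (∏ i, ((P i).card : ℝ)) * μ :=
          mul_le_mul_of_nonneg_right (by exact_mod_cast h5) hμ0.le
      _ ≤ ((1 + e) * a) ^ (p + 3) * μ := mul_le_mul_of_nonneg_right h6 hμ0.le
      _ = ((1 + e) ^ (p + 3) * μ) * (a : ℝ) ^ (p + 3) := by rw [mul_pow]; ring
      _ ≤ 1 * (a : ℝ) ^ (p + 3) := mul_le_mul_of_nonneg_right h7 (by positivity)
      _ = _ := one_mul _
  -- the constants
  have hPc0 : (0 : ℝ) ≤ (p + 1).choose w := Nat.cast_nonneg _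
  have hc0 : (0 : ℝ) ≤ (r - 1).choose w := Nat.cast_nonneg _
  have hQ : ((r - 1).choose w : ℝ) ≤ ν * μ * (p + 1).choose w := by
    have h5 : ((p : ℝ) + 1) * (r - 1).choose w ≤ ((p : ℝ) - 1) * (p + 1).choose w := by
      have h6 : ((p - 1 : ℕ) : ℝ) = (p : ℝ) - 1 := by
        rw [Nat.cast_sub (by omega)]
        norm_num
      rw [← h6]
      exact_mod_cast hc2
    have hp1 : (0 : ℝ) < (p : ℝ) + 1 := by positivity
    have h7 : ((p : ℝ) - 1) ≤ ν * μ * ((p : ℝ) + 1) := by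
      have h8 : (1 - 1 / (16 * b)) * ((p : ℝ) + 1) ≤ ν * μ * ((p : ℝ) + 1) :=
        mul_le_mul_of_nonneg_right hmm2 hp1.le
      have h9 : 1 / (16 * b) * ((p : ℝ) + 1) ≤ 1 := by
        rw [div_mul_eq_mul_div, one_mul, div_le_one (by positivity)]
        rw [hb]
        nlinarith
      linarith
    have h8 : ((p : ℝ) + 1) * (r - 1).choose w ≤
        ((p : ℝ) + 1) * (ν * μ * (p + 1).choose w) := by
      calc ((p : ℝ) + 1) * (r - 1).choose w ≤ ((p : ℝ) - 1) * (p + 1).choose w := h5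
        _ ≤ (ν * μ * ((p : ℝ) + 1)) * (p + 1).choose w := mul_le_mul_of_nonneg_right h7 hPc0
        _ = _ := by ring
    exact le_of_mul_le_mul_left h8 hp1
  have ha0 : 0 ≤ (a : ℝ) ^ (p + 3) := by positivity
  set S : ℝ := 2 ^ (p + 3) * b * T with hSd
  have hS0 : 0 ≤ S := by positivity
  set κ' : ℝ := (a : ℝ) ^ (p + 3 - w) * κ with hκ'
  have hκ'0 : 0 ≤ κ' := by positivity
  have h5 : ν * κ' ≤ kc G (un P) (p + 3) * (r - 1).choose w + S := d2.trans hsum
  have h6 : ν * μ * κ' ≤ ν * μ * ((p + 1).choose w * (a : ℝ) ^ (p + 3)) + S := by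
    calc ν * μ * κ' = (ν * κ') * μ := by ring
      _ ≤ (kc G (un P) (p + 3) * (r - 1).choose w + S) * μ :=
          mul_le_mul_of_nonneg_right h5 hμ0.le
      _ = ((kc G (un P) (p + 3) : ℝ) * μ) * (r - 1).choose w + S * μ := by ring
      _ ≤ (a : ℝ) ^ (p + 3) * (r - 1).choose w + S * 1 :=
          add_le_add (mul_le_mul_of_nonneg_right hX hc0) (mul_le_mul_of_nonneg_left hμ1 hS0)
      _ ≤ (a : ℝ) ^ (p + 3) * (ν * μ * (p + 1).choose w) + S * 1 :=
          add_le_add (mul_le_mul_of_nonneg_left hQ ha0) le_rfl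
      _ = _ := by ring
  have h7 : κ' ≤ (p + 1).choose w * (a : ℝ) ^ (p + 3) + 2 * S := by
    by_contra hcon
    have hcon' := lt_of_not_ge hcon
    set D : ℝ := κ' - (p + 1).choose w * (a : ℝ) ^ (p + 3) with hD
    have h8 : 2 * S < D := by linarith
    have h9 : ν * μ * D ≤ S := by
      rw [hD, mul_sub]
      linarith
    have h10 : 1 / 2 * D ≤ ν * μ * D := mul_le_mul_of_nonneg_right hmm (by linarith)
    linarith
  have h8 : (a : ℝ) ^ (p + 3) = (a : ℝ) ^ w * (a : ℝ) ^ (p + 3 - w) := by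
    rw [← pow_add]
    congr 1
    omega
  have h9 : 2 ^ (p + 4) * b * T = 2 * S := by
    rw [hSd, pow_succ' 2 (p + 3)]
    ring
  have h10 : κ' ≤ ((p + 1).choose w + 1 / 4) * (a : ℝ) ^ (p + 3) + 2 ^ (p + 4) * b * T := by
    rw [h9, add_mul]
    linarith
  calc κ * (a : ℝ) ^ (p + 3) = (a : ℝ) ^ w * κ' := by
        rw [h8, hκ']; ring
    _ ≤ _ := mul_le_mul_of_nonneg_left h10 (by positivity)

end Pool.MF7
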